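import Pool.Agent.K3h74.SZ.Stm

/-!
# Project SZ (helper74): brick DSTB (helper58)
-/

set_option autoImplicit false

namespace Pool.Agent.K3h58.SZ

open Polynomial Pool.Agent.W318 Pool.Agent.K3h74.SZ

/-- the discriminant of a monic polynomial commutes with ring homomorphisms -/
theorem discr_map_monic {R F : Type*} [CommRing R] [Nontrivial R] [Field F] (f : R →+* F)
    {P : R[X]} (hP : P.Monic) (h0 : 0 < P.natDegree) : (P.map f).discr = f P.discr := by
  have h1 := resultant_deriv (natDegree_pos_iff_degree_pos.mp h0)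
  have hd : (P.map f).natDegree = P.natDegree := hP.natDegree_map f
  have h2 := resultant_deriv (f := P.map f)
    (natDegree_pos_iff_degree_pos.mp (by rw [hd]; exact h0))
  rw [derivative_map, hd, resultant_map_map, h1, (hP.map f).leadingCoeff, hP.leadingCoeff] at h2
  simp only [map_mul, map_pow, map_neg, map_one, mul_one] at h2
  have hs : (-1 : F) ^ (P.natDegree * (P.natDegree - 1) / 2) ≠ 0 := pow_ne_zero _ (by simp)
  exact (mul_left_cancel₀ hs h2).symm

theorem sp_eq {R : Type*} [CommRing R] (t : R) (D : ℤ[X]) :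
    sp t D = (D.map (Int.castRingHom R)).eval t := by
  simp [sp, eval₂_eq_eval_map]

/-- an integral polynomial whose complex roots are among `0` and `1` -/
theorem factor_zero_one (n : ℕ) : ∀ D : ℤ[X], D.natDegree = n →
    (∀ t : ℂ, t ≠ 0 → t ≠ 1 → sp t D ≠ 0) →
    ∃ (c0 : ℤ) (b c : ℕ), c0 ≠ 0 ∧ D = C c0 * (X ^ b * (X - 1) ^ c) := by
  induction n using Nat.strong_induction_on with
  | _ n ih =>
  intro D hn hD
  have hD0 : D ≠ 0 := by
    rintro rfl
    exact hD 2 (by norm_num) (by norm_num) (map_zero _)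
  rcases Nat.eq_zero_or_pos n with h0 | h0
  · rw [h0] at hn
    have h1 := eq_C_of_natDegree_eq_zero hn
    refine ⟨D.coeff 0, 0, 0, ?_, by simpa using h1⟩
    intro h2
    rw [h2, map_zero] at h1
    exact hD0 h1
  · have hdeg : (D.map (Int.castRingHom ℂ)).degree ≠ 0 := by
      rw [degree_map_eq_of_injective (RingHom.injective_int _)]
      intro h
      have : D.natDegree = 0 := natDegree_eq_zero_iff_degree_le_zero.2 h.le
      omega
    obtain ⟨t, ht⟩ := IsAlgClosed.exists_root (D.map (Int.castRingHom ℂ)) hdeg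
    have ht' : sp t D = 0 := by rw [sp_eq]; exact ht
    have key : ∀ a : ℤ, t = (a : ℂ) → (X - C a) ∣ D := by
      intro a ha
      rw [dvd_iff_isRoot, IsRoot.def]
      have h1 : ((D.eval a : ℤ) : ℂ) = 0 := by
        rw [sp_eq, ha] at ht'
        rw [← ht']
        have := eval_intCast_map (Int.castRingHom ℂ) D a
        rw [this]
        simp
      exact_mod_cast h1
    have step : ∀ a : ℤ, (X - C a) ∣ D →
        ∃ D1 : ℤ[X], D = (X - C a) * D1 ∧ ∃ (c0 : ℤ) (b c : ℕ), c0 ≠ 0 ∧
          D1 = C c0 * (X ^ b * (X - 1) ^ c) := by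
      intro a hdvd
      obtain ⟨D1, h1⟩ := hdvd
      have hD1 : D1 ≠ 0 := by
        rintro rfl
        rw [mul_zero] at h1
        exact hD0 h1
      have hdeg1 : D.natDegree = 1 + D1.natDegree := by
        rw [h1, natDegree_mul (X_sub_C_ne_zero a) hD1, natDegree_X_sub_C]
      refine ⟨D1, h1, ih D1.natDegree (by omega) D1 rfl fun t h0 h1' h2 => ?_⟩
      refine hD t h0 h1' ?_
      rw [h1, map_mul, h2, mul_zero]
    by_cases t0 : t = 0
    · obtain ⟨D1, h1, c0, b, c, hc, h2⟩ := step 0
        (key 0 (by simpa using t0))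
      refine ⟨c0, b + 1, c, hc, ?_⟩
      rw [h1, h2]
      simp only [map_zero, sub_zero]
      ring
    · by_cases t1 : t = 1
      · obtain ⟨D1, h1, c0, b, c, hc, h2⟩ := step 1
          (key 1 (by simpa using t1))
        refine ⟨c0, b, c + 1, hc, ?_⟩
        rw [h1, h2]
        simp only [map_one]
        ring
      · exact absurd ht' (hD t t0 t1)

theorem t_DSTB : S_DSTA → S_DST := by
  intro hA k δ e Q hk hδ hQ
  have hm : (base k δ Q).Monic := base_monic k δ Q hQ.monic hQ.deg
  have hdeg : (base k δ Q).natDegree = 2 * k + δ := base_natDegree k δ Q hQ.monic hQ.deg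
  set P : ℤ[X][X] := (base k δ Q).comp (X ^ 2) with hP
  have hPm : P.Monic := hm.comp (monic_X_pow 2) (by simp)
  have hPd : P.natDegree = (2 * k + δ) * 2 := by
    rw [hP, natDegree_comp, hdeg, natDegree_X_pow]
  have hP0 : 0 < P.natDegree := by rw [hPd]; omega
  have hmap : ∀ (F : Type) [Field F] (t : F),
      (base k δ (Q.map (sp t))).comp (X ^ 2) = P.map (sp t) := by
    intro F _ t
    rw [hP, Polynomial.map_comp, base_map, Polynomial.map_pow, map_X]
  have hdisc : ∀ (F : Type) [Field F] (t : F),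
      ((base k δ (Q.map (sp t))).comp (X ^ 2)).discr = sp t P.discr := by
    intro F _ t
    rw [hmap, discr_map_monic _ hPm hP0]
  obtain ⟨c0, b, c, hc, hD⟩ := factor_zero_one _ P.discr rfl (by
    intro t h0 h1
    rw [← hdisc ℂ t]
    refine discr_ne_zero (hA k δ e Q hk hδ hQ t h0 h1) ?_
    rw [hmap, hPm.natDegree_map]
    exact hP0)
  refine ⟨c0, b, c, hc, fun F _ _ t => ?_⟩
  have h1 : sp t (C c0 : ℤ[X]) = (c0 : F) := by simp [sp]
  rw [hdisc F t, hD, map_mul, map_mul, map_pow, map_pow, map_sub, map_one, sp_X, h1]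

end Pool.Agent.K3h58.SZ
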