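import Pool.Agent.K3h74.SZ.Stm

/-!
# Project SZ (helper74): brick TWI (helper58)
-/

set_option autoImplicit false

namespace Pool.Agent.K3h58.SZ

open Polynomial Pool.Agent.W318 Finset NumberField IsDedekindDomain WithZero
open Pool.Agent.K3h74.SZ Pool.Agent.Y678.SZ

section alg

variable {F : Type*} [Field F]

/-- the value of the form of degree `N` attached to `P` -/
noncomputable def hom (N : ℕ) (P : F[X]) (x z : F) : F :=
  ∑ i ∈ range (N + 1), P.coeff i * (x ^ i * z ^ (N - i))

theorem coeff_top_act (N : ℕ) (a b c d : F) (P : F[X]) :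
    (act N a b c d P).coeff N = hom N P a c := by
  have hl : ∀ (x y : F) (m : ℕ), ((C x * X + C y : F[X]) ^ m).coeff m = x ^ m := by
    intro x y m
    have := coeff_pow_of_natDegree_le (m := m) (natDegree_lin_le x y)
    rw [mul_one] at this
    rw [this]
    simp
  have hd : ∀ (x y : F) (m : ℕ), ((C x * X + C y : F[X]) ^ m).natDegree ≤ m := by
    intro x y m
    refine natDegree_pow_le.trans ?_
    calc m * _ ≤ m * 1 := Nat.mul_le_mul_left _ (natDegree_lin_le x y)
      _ = m := mul_one _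
  unfold act hom
  rw [finsetSum_coeff]
  refine Finset.sum_congr rfl fun i hi => ?_
  rw [mem_range] at hi
  rw [mul_assoc, coeff_C_mul]
  congr 1
  have h1 : N = i + (N - i) := by omega
  have h2 := coeff_mul_add_eq_of_natDegree_le (hd a b i) (hd c d (N - i))
  rw [← h1, hl, hl] at h2
  exact h2

theorem coeff_zero_act (N : ℕ) (a b c d : F) (P : F[X]) :
    (act N a b c d P).coeff 0 = hom N P b d := by
  unfold act hom
  rw [coeff_zero_eq_eval_zero, eval_finsetSum]
  refine Finset.sum_congr rfl fun i _ => ?_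
  simp [mul_assoc]

theorem hom_div (N : ℕ) (P : F[X]) (x z m : F) (hm : m ≠ 0) :
    m ^ N * hom N P (x / m) (z / m) = hom N P x z := by
  unfold hom
  rw [Finset.mul_sum]
  refine Finset.sum_congr rfl fun i hi => ?_
  rw [mem_range] at hi
  have h1 : m ^ N = m ^ i * m ^ (N - i) := by rw [← pow_add]; congr 1; omega
  have h2 := pow_ne_zero i hm
  have h3 := pow_ne_zero (N - i) hm
  rw [h1, div_pow, div_pow]
  field_simp

theorem hom_eval (N : ℕ) (P : F[X]) (hP : P.natDegree ≤ N) (x z : F) (hz : z ≠ 0) :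
    hom N P x z = z ^ N * P.eval (x / z) := by
  rw [eval_eq_sum_range' (Nat.lt_succ_of_le hP), Finset.mul_sum]
  unfold hom
  refine Finset.sum_congr rfl fun i hi => ?_
  rw [mem_range] at hi
  have h1 : z ^ N = z ^ i * z ^ (N - i) := by rw [← pow_add]; congr 1; omega
  have h2 := pow_ne_zero i hz
  rw [h1, div_pow]
  field_simp

theorem hom_zero (N : ℕ) (P : F[X]) (x : F) : hom N P x 0 = P.coeff N * x ^ N := by
  unfold hom
  rw [Finset.sum_eq_single N]
  · simp
  · intro i hi hne
    rw [mem_range] at hi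
    rw [zero_pow (by omega : N - i ≠ 0)]
    ring
  · intro h
    exact absurd (mem_range.2 (Nat.lt_succ_self N)) h

/-- the form of the twisted cover -/
noncomputable def VV (k δ ε : ℕ) (Q : F[X]) (y w x z : F) : F :=
  w ^ ε * y * ((w * x ^ 2 - z ^ 2) ^ δ * ∑ j ∈ range (k + 1),
    Q.coeff j * (((w * x ^ 2 - z ^ 2) ^ 2) ^ j * (-4 * (w * x ^ 2 * z ^ 2)) ^ (k - j)))

theorem eval_base (k δ : ℕ) (Q : F[X]) (s : F) : (base k δ Q).eval s =
    (s - 1) ^ δ * ∑ j ∈ range (k + 1), Q.coeff j * (((s - 1) ^ 2) ^ j * (-4 * s) ^ (k - j)) := by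
  unfold base cover
  rw [eval_mul, eval_finsetSum]
  simp

theorem hom_frm (k δ ε : ℕ) (Q : F[X]) (y w : F) (hQ : Q.Monic) (hd : Q.natDegree = k)
    (hw : w ≠ 0) (x z : F) :
    hom (2 * k + δ + (2 * k + δ)) (frm k δ ε Q y w) x z = VV k δ ε Q y w x z := by
  have hB := base_monic k δ Q hQ hd
  have hBd := base_natDegree k δ Q hQ hd
  have hq : (C w * X ^ 2 : F[X]).natDegree = 2 := natDegree_C_mul_X_pow 2 w hw
  have hql : (C w * X ^ 2 : F[X]).leadingCoeff = w := leadingCoeff_C_mul_X_pow w 2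
  have hcd : ((base k δ Q).comp (C w * X ^ 2)).natDegree = 2 * k + δ + (2 * k + δ) := by
    rw [natDegree_comp, hBd, hq]
    ring
  have hcl : ((base k δ Q).comp (C w * X ^ 2)).coeff (2 * k + δ + (2 * k + δ)) =
      w ^ (2 * k + δ) := by
    rw [← hcd, coeff_natDegree, leadingCoeff_comp (by rw [hq]; norm_num), hB.leadingCoeff, hql,
      hBd, one_mul]
  have hN : (frm k δ ε Q y w).natDegree ≤ 2 * k + δ + (2 * k + δ) := by
    show (C (w ^ ε * y) * (base k δ Q).comp (C w * X ^ 2)).natDegree ≤ _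
    exact (natDegree_C_mul_le _ _).trans hcd.le
  by_cases hz : z = 0
  · subst hz
    rw [hom_zero]
    show (C (w ^ ε * y) * (base k δ Q).comp (C w * X ^ 2)).coeff _ * _ = _
    rw [coeff_C_mul, hcl]
    unfold VV
    have h1 : ∑ j ∈ range (k + 1), Q.coeff j * (((w * x ^ 2 - 0 ^ 2) ^ 2) ^ j *
        (-4 * (w * x ^ 2 * 0 ^ 2)) ^ (k - j)) = ((w * x ^ 2) ^ 2) ^ k := by
      rw [Finset.sum_eq_single k]
      · have h2 : Q.coeff k = 1 := by rw [← hd]; exact hQ
        rw [h2]
        simp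
      · intro j hj hne
        rw [mem_range] at hj
        have h3 : (-4 * (w * x ^ 2 * 0 ^ 2) : F) = 0 := by ring
        rw [h3, zero_pow (by omega : k - j ≠ 0)]
        ring
      · intro h
        exact absurd (mem_range.2 (Nat.lt_succ_self k)) h
    rw [h1]
    have h4 : (w * x ^ 2 - 0 ^ 2 : F) = w * x ^ 2 := by ring
    rw [h4]
    ring
  · rw [hom_eval _ _ hN x z hz]
    show z ^ _ * (C (w ^ ε * y) * (base k δ Q).comp (C w * X ^ 2)).eval (x / z) = _
    rw [eval_mul, eval_C, eval_comp, eval_mul, eval_C, eval_pow, eval_X, eval_base]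
    unfold VV
    have h1 : w * x ^ 2 - z ^ 2 = z ^ 2 * (w * (x / z) ^ 2 - 1) := by
      field_simp
    have h2 : -4 * (w * x ^ 2 * z ^ 2) = (z ^ 2) ^ 2 * (-4 * (w * (x / z) ^ 2)) := by
      field_simp
    rw [h1, h2]
    set s := w * (x / z) ^ 2 with hs
    have h3 : ∀ j ∈ range (k + 1), Q.coeff j * (((z ^ 2 * (s - 1)) ^ 2) ^ j *
        ((z ^ 2) ^ 2 * (-4 * s)) ^ (k - j)) = ((z ^ 2) ^ 2) ^ k *
          (Q.coeff j * (((s - 1) ^ 2) ^ j * (-4 * s) ^ (k - j))) := by
      intro j hj
      rw [mem_range] at hj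
      have h4 : ((z ^ 2) ^ 2) ^ k = ((z ^ 2) ^ 2) ^ j * ((z ^ 2) ^ 2) ^ (k - j) := by
        rw [← pow_add]; congr 1; omega
      rw [h4, mul_pow, mul_pow, mul_pow]
      ring
    rw [Finset.sum_congr rfl h3, ← Finset.mul_sum, mul_pow]
    have h5 : z ^ (2 * k + δ + (2 * k + δ)) = (z ^ 2) ^ δ * ((z ^ 2) ^ 2) ^ k := by
      rw [← pow_mul, ← pow_mul, ← pow_mul, ← pow_add]
      congr 1
      ring
    rw [h5]
    ring

end alg

section val

variable {K : Type*} [Field K] [NumberField K] {v : HeightOneSpectrum (𝓞 K)}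

theorem val_lt_one {z : K} (hz : v.valuation K z < 1) : v.valuation K z ≤ exp (-1) := by
  rcases eq_or_ne z 0 with rfl | h0
  · rw [map_zero]; exact zero_le
  · obtain ⟨e, he⟩ := exists_exp v h0
    rw [he, ← exp_zero, exp_lt_exp] at hz
    rw [he, exp_le_exp]
    omega

/-- The value of the sum with the leading term `j = k`. -/
theorem val_sum {k : ℕ} {q A B : ℕ → K} (hq : ∀ i, v.valuation K (q i) ≤ 1) (hk : q k = 1)
    {α β : ℤ} (hαβ : β < α) {u r : K} (hu : v.valuation K u = exp α)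
    (hr : v.valuation K r ≤ exp β) (hA : ∀ j, A j = u ^ j) (hB : ∀ j, B j = r ^ j) :
    v.valuation K (∑ j ∈ range (k + 1), q j * (A j * B (k - j))) = exp (k * α) := by
  rw [sum_range_succ]
  have h1 : v.valuation K (q k * (A k * B (k - k))) = exp (k * α) := by
    rw [hk, hA, hB, Nat.sub_self, pow_zero, mul_one, one_mul, map_pow, hu, ← exp_nsmul,
      nsmul_eq_mul]
  have h2 : v.valuation K (∑ j ∈ range k, q j * (A j * B (k - j))) < exp (k * α) := by
    refine Valuation.map_sum_lt _ exp_ne_zero fun j hj => ?_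
    rw [mem_range] at hj
    have h3 : v.valuation K (q j * (A j * B (k - j))) ≤ exp (j * α + (k - j : ℕ) * β) := by
      rw [map_mul, map_mul, hA, hB, map_pow, map_pow, hu, ← exp_nsmul, nsmul_eq_mul, exp_add]
      refine (mul_le_of_le_one_left' (hq j)).trans (mul_le_mul_right ?_ _)
      refine (pow_le_pow_left' hr _).trans ?_
      rw [← exp_nsmul, nsmul_eq_mul]
    refine h3.trans_lt ?_
    rw [exp_lt_exp]
    have h4 : (k : ℤ) * α = j * α + (k - j : ℕ) * α := by
      rw [Nat.cast_sub hj.le]; ring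
    rw [h4]
    have h5 : (0 : ℤ) < ((k - j : ℕ) : ℤ) := by exact_mod_cast Nat.sub_pos_of_lt hj
    have h6 := mul_lt_mul_of_pos_left hαβ h5
    omega
  rw [Valuation.map_add_eq_of_lt_right _ (by rw [h1]; exact h2), h1]

variable {k δ ε : ℕ} {Q : K[X]} {y w : K}

theorem val_VV (hQ : Q.Monic) (hd : Q.natDegree = k) (hq : ∀ i, v.valuation K (Q.coeff i) ≤ 1)
    (hy : v.valuation K y = 1) (hw : v.valuation K w = exp (-1)) {x z : K}
    (hx : v.valuation K x ≤ 1) :
    (v.valuation K z = 1 → v.valuation K (VV k δ ε Q y w x z) = exp (-(ε : ℤ))) ∧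
    (v.valuation K z < 1 → v.valuation K x = 1 →
      v.valuation K (VV k δ ε Q y w x z) = exp (-((ε + δ + 2 * k : ℕ) : ℤ))) := by
  have h4 : v.valuation K (-4 : K) ≤ 1 := by
    rw [Valuation.map_neg]
    exact_mod_cast val_nat_le_one v 4
  have hk1 : Q.coeff k = 1 := by rw [← hd]; exact hQ
  have hw1 : v.valuation K w ^ ε = exp (-(ε : ℤ)) := by
    rw [hw, ← exp_nsmul]
    congr 1
    simp
  constructor
  · intro hz1
    have hu : v.valuation K (w * x ^ 2 - z ^ 2) = 1 := by
      have h1 : v.valuation K (w * x ^ 2) < v.valuation K (z ^ 2) := by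
        rw [map_mul, map_pow, map_pow, hz1, one_pow, hw]
        refine (mul_le_of_le_one_right' (pow_le_one' hx _)).trans_lt ?_
        rw [← exp_zero, exp_lt_exp]
        omega
      rw [Valuation.map_sub_eq_of_lt_right _ h1, map_pow, hz1, one_pow]
    have hr : v.valuation K (-4 * (w * x ^ 2 * z ^ 2)) ≤ exp (-1) := by
      rw [map_mul, map_mul, map_mul, map_pow, map_pow, hz1, one_pow, mul_one, hw]
      exact (mul_le_of_le_one_left' h4).trans (mul_le_of_le_one_right' (pow_le_one' hx _))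
    have h5 := val_sum (q := Q.coeff) (A := fun j => ((w * x ^ 2 - z ^ 2) ^ 2) ^ j)
      (B := fun j => (-4 * (w * x ^ 2 * z ^ 2)) ^ j) hq hk1 (α := 0) (β := -1) (by norm_num)
      (u := (w * x ^ 2 - z ^ 2) ^ 2) (by rw [map_pow, hu, one_pow, exp_zero]) hr
      (fun _ => rfl) (fun _ => rfl)
    rw [mul_zero, exp_zero] at h5
    unfold VV
    rw [map_mul, map_mul, map_mul, map_pow, map_pow, hy, hu, h5, hw1, one_pow, mul_one, mul_one,
      mul_one]
  · intro hz1 hx1
    have hz2 := val_lt_one hz1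
    have hzz : v.valuation K (z ^ 2) ≤ exp (-2) := by
      rw [map_pow]
      refine (pow_le_pow_left' hz2 2).trans ?_
      rw [← exp_nsmul, exp_le_exp]
      simp
    have hwx : v.valuation K (w * x ^ 2) = exp (-1) := by
      rw [map_mul, map_pow, hx1, one_pow, mul_one, hw]
    have hu : v.valuation K (w * x ^ 2 - z ^ 2) = exp (-1) := by
      have h1 : v.valuation K (z ^ 2) < v.valuation K (w * x ^ 2) := by
        rw [hwx]
        refine hzz.trans_lt ?_
        rw [exp_lt_exp]
        omega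
      rw [Valuation.map_sub_eq_of_lt_left _ h1, hwx]
    have hr : v.valuation K (-4 * (w * x ^ 2 * z ^ 2)) ≤ exp (-3) := by
      rw [map_mul, map_mul, hwx]
      refine (mul_le_of_le_one_left' h4).trans ?_
      have h6 : exp (-1) * v.valuation K (z ^ 2) ≤ exp (-1) * exp (-2) :=
        mul_le_mul_right hzz _
      refine h6.trans ?_
      rw [← exp_add, exp_le_exp]
      norm_num
    have h5 := val_sum (q := Q.coeff) (A := fun j => ((w * x ^ 2 - z ^ 2) ^ 2) ^ j)
      (B := fun j => (-4 * (w * x ^ 2 * z ^ 2)) ^ j) hq hk1 (α := -2) (β := -3) (by norm_num)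
      (u := (w * x ^ 2 - z ^ 2) ^ 2) (by
        rw [map_pow, hu, ← exp_nsmul]
        congr 1) hr
      (fun _ => rfl) (fun _ => rfl)
    unfold VV
    rw [map_mul, map_mul, map_mul, map_pow, map_pow, hy, hu, h5, hw1, mul_one, ← exp_nsmul,
      ← exp_add, ← exp_add]
    congr 1
    simp only [nsmul_eq_mul]
    push_cast
    ring

/-- The primitive case. -/
theorem twi_prim (hδ : δ + ε = 1) (hQ : Q.Monic) (hd : Q.natDegree = k)
    (hq : ∀ i, v.valuation K (Q.coeff i) ≤ 1)
    (hy : v.valuation K y = 1) (hw : v.valuation K w = exp (-1)) {a b c d l : K}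
    (ha : v.valuation K a ≤ 1) (hb : v.valuation K b ≤ 1) (hc : v.valuation K c ≤ 1)
    (hdd : v.valuation K d ≤ 1)
    (hone : v.valuation K a = 1 ∨ v.valuation K b = 1 ∨ v.valuation K c = 1 ∨
      v.valuation K d = 1) (hl : l ≠ 0)
    (h1 : v.valuation K (l ^ 2 * VV k δ ε Q y w a c) ≤ 1)
    (h2 : v.valuation K (l ^ 2 * VV k δ ε Q y w b d) ≤ 1) :
    v.valuation K (l ^ 2 * (a * d - b * c) ^ (2 * k + δ)) ≤ 1 := by
  obtain ⟨e, he⟩ := exists_exp v hl
  have hdet : v.valuation K (a * d - b * c) ≤ 1 := by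
    refine (Valuation.map_sub _ _ _).trans (max_le ?_ ?_)
    · rw [map_mul]; exact mul_le_one' ha hdd
    · rw [map_mul]; exact mul_le_one' hb hc
  -- the first case
  have case1 : ∀ q : K, v.valuation K q = exp (-(ε : ℤ)) → v.valuation K (l ^ 2 * q) ≤ 1 →
      v.valuation K (l ^ 2 * (a * d - b * c) ^ (2 * k + δ)) ≤ 1 := by
    intro q hq h
    rw [map_mul, map_pow, hq, he, ← exp_nsmul, ← exp_add, ← exp_zero, exp_le_exp] at h
    simp only [nsmul_eq_mul] at h
    push_cast at h
    have he0 : e ≤ 0 := by omega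
    rw [map_mul, map_pow, map_pow, he]
    refine mul_le_one' (pow_le_one' ?_ _) (pow_le_one' hdet _)
    rw [← exp_zero, exp_le_exp]
    exact he0
  by_cases hc1 : v.valuation K c = 1
  · exact case1 _ ((val_VV hQ hd hq hy hw ha).1 hc1) h1
  by_cases hd1 : v.valuation K d = 1
  · exact case1 _ ((val_VV hQ hd hq hy hw hb).1 hd1) h2
  have hc' : v.valuation K c < 1 := lt_of_le_of_ne hc hc1
  have hd' : v.valuation K d < 1 := lt_of_le_of_ne hdd hd1
  have hdet' : v.valuation K (a * d - b * c) ≤ exp (-1) := by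
    refine val_lt_one ?_
    refine (Valuation.map_sub _ _ _).trans_lt (max_lt ?_ ?_)
    · rw [map_mul]; exact (mul_le_of_le_one_left' ha).trans_lt hd'
    · rw [map_mul]; exact (mul_le_of_le_one_left' hb).trans_lt hc'
  have case2 : ∀ q : K, v.valuation K q = exp (-((ε + δ + 2 * k : ℕ) : ℤ)) →
      v.valuation K (l ^ 2 * q) ≤ 1 →
      v.valuation K (l ^ 2 * (a * d - b * c) ^ (2 * k + δ)) ≤ 1 := by
    intro q hq h
    rw [map_mul, map_pow, hq, he, ← exp_nsmul, ← exp_add, ← exp_zero, exp_le_exp] at h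
    simp only [nsmul_eq_mul] at h
    push_cast at h
    rw [map_mul, map_pow, map_pow, he]
    calc exp e ^ 2 * v.valuation K (a * d - b * c) ^ (2 * k + δ) ≤
          exp e ^ 2 * exp (-1) ^ (2 * k + δ) := mul_le_mul_right (pow_le_pow_left' hdet' _) _
      _ ≤ 1 := by
        rw [← exp_nsmul, ← exp_nsmul, ← exp_add, ← exp_zero, exp_le_exp]
        simp only [nsmul_eq_mul]
        push_cast
        omega
  rcases hone with h | h | h | h
  · exact case2 _ ((val_VV hQ hd hq hy hw ha).2 hc' h) h1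
  · exact case2 _ ((val_VV hQ hd hq hy hw hb).2 hd' h) h2
  · exact absurd h hc1
  · exact absurd h hd1

end val

theorem t_TWI : S_TWI := by
  intro K _ _ v k δ ε Q y w hk hδ hQ hd hq hy hw a b c d l hdet hl hint
  classical
  have hw0 : w ≠ 0 := by
    rintro rfl
    rw [map_zero] at hw
    exact exp_ne_zero hw.symm
  -- an entry of maximal value
  obtain ⟨m, hm0, hma, hmb, hmc, hmd, hone⟩ : ∃ m : K, m ≠ 0 ∧
      v.valuation K a ≤ v.valuation K m ∧ v.valuation K b ≤ v.valuation K m ∧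
      v.valuation K c ≤ v.valuation K m ∧ v.valuation K d ≤ v.valuation K m ∧
      (m = a ∨ m = b ∨ m = c ∨ m = d) := by
    obtain ⟨m, hm, hmax⟩ := Finset.exists_max_image ({a, b, c, d} : Finset K)
      (fun x => v.valuation K x) ⟨a, by simp⟩
    have ha := hmax a (by simp)
    have hb := hmax b (by simp)
    have hc := hmax c (by simp)
    have hd := hmax d (by simp)
    refine ⟨m, ?_, ha, hb, hc, hd, by simpa using hm⟩
    rintro rfl
    rw [map_zero, le_zero_iff, Valuation.zero_iff] at ha hb hc hd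
    apply hdet
    rw [ha, hb]
    ring
  have hdiv : ∀ x : K, v.valuation K x ≤ v.valuation K m → v.valuation K (x / m) ≤ 1 := by
    intro x hx
    rw [map_div₀]
    exact div_le_one_of_le₀ hx zero_le
  have hone' : v.valuation K (a / m) = 1 ∨ v.valuation K (b / m) = 1 ∨
      v.valuation K (c / m) = 1 ∨ v.valuation K (d / m) = 1 := by
    rcases hone with h | h | h | h
    · left; rw [← h, div_self hm0, map_one]
    · right; left; rw [← h, div_self hm0, map_one]
    · right; right; left; rw [← h, div_self hm0, map_one]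
    · right; right; right; rw [← h, div_self hm0, map_one]
  have h1 := hint (2 * k + δ + (2 * k + δ))
  have h2 := hint 0
  rw [coeff_C_mul, coeff_top_act] at h1
  rw [coeff_C_mul, coeff_zero_act] at h2
  have hsc : ∀ x z : K, (l * m ^ (2 * k + δ)) ^ 2 * VV k δ ε Q y w (x / m) (z / m) =
      l ^ 2 * hom (2 * k + δ + (2 * k + δ)) (frm k δ ε Q y w) x z := by
    intro x z
    rw [← hom_frm k δ ε Q y w hQ hd hw0, ← hom_div _ _ x z m hm0]
    ring
  have key := twi_prim hδ hQ hd hq hy hw (hdiv a hma) (hdiv b hmb) (hdiv c hmc) (hdiv d hmd)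
    hone' (l := l * m ^ (2 * k + δ)) (mul_ne_zero hl (pow_ne_zero _ hm0))
    (by rw [hsc]; exact h1) (by rw [hsc]; exact h2)
  have e : (l * m ^ (2 * k + δ)) ^ 2 * (a / m * (d / m) - b / m * (c / m)) ^ (2 * k + δ) =
      l ^ 2 * (a * d - b * c) ^ (2 * k + δ) := by
    have e1 : (a / m * (d / m) - b / m * (c / m)) = (a * d - b * c) / m ^ 2 := by
      field_simp
    rw [e1, div_pow, mul_pow, ← pow_mul, ← pow_mul, mul_comm (2 * k + δ) 2]
    have := pow_ne_zero (2 * (2 * k + δ)) hm0
    field_simp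
  rwa [e] at key

end Pool.Agent.K3h58.SZ
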